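import Pool.Agent.P.MP_b9400b_co.Count

/-!
A certificate for two distinct 2-binomially equivalent factors of an Arnoux-Rauzy word
over four letters.  The list `cert` describes the directive sequence from the top level down
(runs of one letter) together with the positions of the four cuts; the checker follows the letter
counts of the two factors and the difference of their antisymmetrised pair counts.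
-/

set_option autoImplicit false

namespace Pool.Agent.P.MP_b9400b_co

/-- A run: letter, length, and the cut positions for the two words. -/
structure Step where
  x : Fin 4
  m : ℕ
  k1 : ℕ
  k2 : ℕ
  k3 : ℕ
  k4 : ℕ

def mk4 {β : Type} (a b c d : β) : Fin 4 → β := fun i =>
  match i.val with
  | 0 => a
  | 1 => b
  | 2 => c
  | _ => d

lemma mk4_eq {β : Type} (f : Fin 4 → β) : mk4 (f 0) (f 1) (f 2) (f 3) = f := by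
  funext i; fin_cases i <;> rfl

def fn (n : ℕ) (k : ℕ → Bool) : Bool :=
  match n with
  | 0 => k 0
  | m + 1 => k (m + 1)

def fz (z : ℤ) (k : ℤ → Bool) : Bool :=
  match z with
  | Int.ofNat n => fn n fun n => k (Int.ofNat n)
  | Int.negSucc n => fn n fun n => k (Int.negSucc n)

lemma fn_eq (n : ℕ) (k : ℕ → Bool) : fn n k = k n := by cases n <;> rfl

lemma fz_eq (z : ℤ) (k : ℤ → Bool) : fz z k = k z := by cases z <;> simp [fz, fn_eq]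

def tab (f : Fin 4 → ℤ) (k : (Fin 4 → ℤ) → Bool) : Bool :=
  fz (f 0) fun a => fz (f 1) fun b => fz (f 2) fun c => fz (f 3) fun d => k (mk4 a b c d)

lemma tab_eq (f : Fin 4 → ℤ) (k : (Fin 4 → ℤ) → Bool) : tab f k = k f := by
  simp only [tab, fz_eq, mk4_eq]

def tabM (f : Fin 4 → Fin 4 → ℤ) (k : (Fin 4 → Fin 4 → ℤ) → Bool) : Bool :=
  tab (f 0) fun a => tab (f 1) fun b => tab (f 2) fun c => tab (f 3) fun d => k (mk4 a b c d)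

lemma tabM_eq (f : Fin 4 → Fin 4 → ℤ) (k : (Fin 4 → Fin 4 → ℤ) → Bool) : tabM f k = k f := by
  simp only [tabM, tab_eq, mk4_eq]

def s4 (x : Fin 4) (f : Fin 4 → ℤ) : ℤ :=
  ne x 0 * f 0 + ne x 1 * f 1 + ne x 2 * f 2 + ne x 3 * f 3

def newP (x : Fin 4) (m k k' : ℕ) (P : Fin 4 → ℤ) (a : Fin 4) : ℤ :=
  if x = a then P a + (m * s4 x P + k' - k) else P a

def row (t : Step) (P R : Fin 4 → ℤ) (M : Fin 4 → Fin 4 → ℤ) (b : Fin 4) : ℤ :=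
  M t.x b + t.m * s4 t.x (fun c => M c b) + (t.m - t.k1 - t.k2) * P b - (t.m - t.k3 - t.k4) * R b

def newM (t : Step) (P R : Fin 4 → ℤ) (M : Fin 4 → Fin 4 → ℤ) (a b : Fin 4) : ℤ :=
  if t.x = a then (if t.x = b then 0 else row t P R M b)
  else if t.x = b then - row t P R M a else M a b

def go : List Step → (Fin 4 → ℤ) → (Fin 4 → ℤ) → (Fin 4 → Fin 4 → ℤ) → Fin 4 → Fin 4 → Bool
  | [], P, R, M, a, b => decide (∀ c, P c = R c) && decide (∀ c d, M c d = 0) && decide (a ≠ b)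
  | t :: ts, P, R, M, a, b =>
    decide (t.k1 ≤ t.m) && decide (t.k2 ≤ t.m) && decide (t.k3 ≤ t.m) && decide (t.k4 ≤ t.m) &&
    decide (1 ≤ s4 t.x P) && decide (1 ≤ s4 t.x R) &&
    tab (newP t.x t.m t.k1 t.k2 P) fun P' => tab (newP t.x t.m t.k3 t.k4 R) fun R' =>
      tabM (newM t P R M) fun M' =>
        go ts P' R' M' (if t.k1 < t.m then t.x else a) (if t.k3 < t.m then t.x else b)

lemma s4_W (x : Fin 4) (u : List (Fin 4)) : s4 x (fun c => W (dl c) u) = W (ne x) u := by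
  rw [W_sum (ne x) u, Fin.sum_univ_four]; rfl

lemma s4_Q (x : Fin 4) (g : Fin 4 → ℤ) (u v : List (Fin 4)) :
    s4 x (fun c => Q (dl c) g u - Q (dl c) g v) = Q (ne x) g u - Q (ne x) g v := by
  rw [Q_sum (ne x) g u, Q_sum (ne x) g v, Fin.sum_univ_four, Fin.sum_univ_four]
  simp only [s4]; ring

lemma go_sound : ∀ (ts : List Step) (D : ℕ → Fin 4) (u v : List (Fin 4)) (a b : Fin 4),
    Rich D → Fac D u → Fac D v → u.head? = some a → v.head? = some b →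
    go ts (fun c => W (dl c) u) (fun c => W (dl c) v)
      (fun c d => Q (dl c) (dl d) u - Q (dl c) (dl d) v) a b = true →
    ∃ (D' : ℕ → Fin 4) (u' v' : List (Fin 4)), Rich D' ∧ Fac D' u' ∧ Fac D' v' ∧ u' ≠ v' ∧
      (∀ c, W (dl c) u' = W (dl c) v') ∧ ∀ c d, Q (dl c) (dl d) u' = Q (dl c) (dl d) v' := by
  intro ts
  induction ts with
  | nil =>
    intro D u v a b hD hu hv ha hb h
    simp only [go, Bool.and_eq_true, decide_eq_true_eq] at h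
    refine ⟨D, u, v, hD, hu, hv, ?_, h.1.1, fun c d => sub_eq_zero.1 (h.1.2 c d)⟩
    rintro rfl
    rw [ha] at hb
    exact h.2 (Option.some.inj hb)
  | cons t ts ih =>
    intro D u v a b hD hu hv ha hb h
    simp only [go, Bool.and_eq_true, decide_eq_true_eq, tab_eq, tabM_eq, s4_W] at h
    obtain ⟨⟨⟨⟨⟨⟨h1, h2⟩, h3⟩, h4⟩, h5⟩, h6⟩, h⟩ := h
    obtain ⟨u', fu, hu', wu, qu⟩ := word_step hu t.x t.m t.k1 t.k2 h1 h2 h5 a ha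
    obtain ⟨v', fv, hv', wv, qv⟩ := word_step hv t.x t.m t.k3 t.k4 h3 h4 h6 b hb
    refine ih _ u' v' _ _ (hD.run t.x t.m) fu fv hu' hv' ?_
    have hrow : ∀ d, t.x ≠ d → Q (dl t.x) (dl d) u' - Q (dl t.x) (dl d) v' =
        row t (fun c => W (dl c) u) (fun c => W (dl c) v)
          (fun c d => Q (dl c) (dl d) u - Q (dl c) (dl d) v) d := by
      intro d hd
      have g0 : dl d t.x = 0 := by simp [dl, hd]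
      have f1 : dl t.x t.x = 1 := by simp [dl]
      rw [qu _ _ g0, qv _ _ g0, f1]
      simp only [row, s4_Q]
      ring
    have e1 : (fun c => W (dl c) u') = newP t.x t.m t.k1 t.k2 (fun c => W (dl c) u) := by
      funext c
      rw [wu]
      by_cases hc : t.x = c <;> simp [newP, s4_W, dl, hc]
    have e2 : (fun c => W (dl c) v') = newP t.x t.m t.k3 t.k4 (fun c => W (dl c) v) := by
      funext c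
      rw [wv]
      by_cases hc : t.x = c <;> simp [newP, s4_W, dl, hc]
    have e3 : (fun c d => Q (dl c) (dl d) u' - Q (dl c) (dl d) v') =
        newM t (fun c => W (dl c) u) (fun c => W (dl c) v)
          (fun c d => Q (dl c) (dl d) u - Q (dl c) (dl d) v) := by
      funext c d
      unfold newM
      by_cases hc : t.x = c
      · by_cases hd : t.x = d
        · rw [if_pos hc, if_pos hd, ← hc, ← hd]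
          have z1 := Q_anti (dl t.x) (dl t.x) u'
          have z2 := Q_anti (dl t.x) (dl t.x) v'
          omega
        · rw [if_pos hc, if_neg hd, ← hrow d hd, hc]
      · by_cases hd : t.x = d
        · rw [if_neg hc, if_pos hd, ← hrow c hc, ← hd, Q_anti (dl c) _ u', Q_anti (dl c) _ v']
          ring
        · have g0 : dl d t.x = 0 := by simp [dl, hd]
          have f0 : dl c t.x = 0 := by simp [dl, hc]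
          rw [if_neg hc, if_neg hd, qu _ _ g0, qv _ _ g0, f0]
          ring
    rw [e1, e2, e3]
    exact h

/-- The certificate. -/
def cert : List Step :=
  [
    ⟨0, 2, 2, 0, 2, 0⟩, ⟨2, 3, 3, 2, 1, 0⟩, ⟨0, 5, 1, 0, 5, 3⟩,
    ⟨1, 8, 8, 8, 0, 0⟩, ⟨2, 5, 5, 1, 1, 4⟩, ⟨3, 283, 140, 283, 139, 280⟩,
    ⟨1, 171, 1, 168, 4, 171⟩, ⟨0, 170, 3, 169, 0, 166⟩, ⟨3, 169, 1, 166, 4, 169⟩,
    ⟨1, 168, 3, 167, 0, 164⟩, ⟨0, 167, 1, 164, 4, 167⟩, ⟨3, 166, 3, 165, 0, 162⟩,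
    ⟨1, 165, 1, 162, 4, 165⟩, ⟨0, 164, 3, 163, 0, 160⟩, ⟨3, 163, 1, 160, 4, 163⟩,
    ⟨1, 162, 3, 161, 0, 158⟩, ⟨0, 161, 1, 158, 4, 161⟩, ⟨3, 160, 3, 159, 0, 156⟩,
    ⟨1, 159, 1, 156, 4, 159⟩, ⟨0, 158, 3, 157, 0, 154⟩, ⟨3, 157, 1, 154, 4, 157⟩,
    ⟨1, 156, 3, 155, 0, 152⟩, ⟨0, 155, 1, 152, 4, 155⟩, ⟨3, 154, 3, 153, 0, 150⟩,
    ⟨1, 153, 1, 150, 4, 153⟩, ⟨0, 152, 3, 151, 0, 148⟩, ⟨3, 151, 1, 148, 4, 151⟩,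
    ⟨1, 150, 3, 149, 0, 146⟩, ⟨0, 149, 1, 146, 4, 149⟩, ⟨3, 148, 3, 147, 0, 144⟩,
    ⟨1, 147, 1, 144, 4, 147⟩, ⟨0, 146, 3, 145, 0, 142⟩, ⟨3, 145, 1, 142, 4, 145⟩,
    ⟨1, 144, 3, 143, 0, 140⟩, ⟨0, 143, 1, 140, 4, 143⟩, ⟨3, 142, 3, 141, 0, 138⟩,
    ⟨1, 141, 1, 138, 4, 141⟩, ⟨0, 140, 3, 139, 0, 136⟩, ⟨3, 139, 1, 136, 4, 139⟩,
    ⟨1, 138, 3, 137, 0, 134⟩, ⟨0, 137, 1, 134, 4, 137⟩, ⟨3, 136, 3, 135, 0, 132⟩,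
    ⟨1, 135, 1, 132, 4, 135⟩, ⟨0, 134, 3, 133, 0, 130⟩, ⟨3, 133, 1, 130, 4, 133⟩,
    ⟨1, 132, 3, 131, 0, 128⟩, ⟨0, 131, 1, 128, 4, 131⟩, ⟨3, 130, 3, 129, 0, 126⟩,
    ⟨1, 129, 1, 126, 4, 129⟩, ⟨0, 128, 3, 127, 0, 124⟩, ⟨3, 127, 1, 124, 4, 127⟩,
    ⟨1, 126, 3, 125, 0, 122⟩, ⟨0, 125, 1, 122, 4, 125⟩, ⟨3, 124, 3, 123, 0, 120⟩,
    ⟨1, 123, 1, 120, 4, 123⟩, ⟨0, 122, 3, 121, 0, 118⟩, ⟨3, 121, 1, 118, 4, 121⟩,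
    ⟨1, 120, 3, 119, 0, 116⟩, ⟨0, 119, 1, 116, 4, 119⟩, ⟨3, 118, 3, 117, 0, 114⟩,
    ⟨1, 117, 1, 114, 4, 117⟩, ⟨0, 116, 3, 115, 0, 112⟩, ⟨3, 115, 1, 112, 4, 115⟩,
    ⟨1, 114, 3, 113, 0, 110⟩, ⟨0, 113, 1, 110, 4, 113⟩, ⟨3, 112, 3, 111, 0, 108⟩,
    ⟨1, 111, 1, 108, 4, 111⟩, ⟨0, 110, 3, 109, 0, 106⟩, ⟨3, 109, 1, 106, 4, 109⟩,
    ⟨1, 108, 3, 107, 0, 104⟩, ⟨0, 107, 1, 104, 4, 107⟩, ⟨3, 106, 3, 105, 0, 102⟩,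
    ⟨1, 105, 1, 102, 4, 105⟩, ⟨0, 104, 3, 103, 0, 100⟩, ⟨3, 103, 1, 100, 4, 103⟩,
    ⟨1, 102, 3, 101, 0, 98⟩, ⟨0, 101, 1, 98, 4, 101⟩, ⟨3, 100, 3, 99, 0, 96⟩,
    ⟨1, 99, 1, 96, 4, 99⟩, ⟨0, 98, 3, 97, 0, 94⟩, ⟨3, 97, 1, 94, 4, 97⟩,
    ⟨1, 96, 3, 95, 0, 92⟩, ⟨0, 95, 1, 92, 4, 95⟩, ⟨3, 94, 3, 93, 0, 90⟩,
    ⟨1, 93, 1, 90, 4, 93⟩, ⟨0, 92, 3, 91, 0, 88⟩, ⟨3, 91, 1, 88, 4, 91⟩,
    ⟨1, 90, 3, 89, 0, 86⟩, ⟨0, 89, 1, 86, 4, 89⟩, ⟨3, 88, 3, 87, 0, 84⟩,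
    ⟨1, 87, 1, 84, 4, 87⟩, ⟨0, 86, 3, 85, 0, 82⟩, ⟨3, 85, 1, 82, 4, 85⟩,
    ⟨1, 84, 3, 83, 0, 80⟩, ⟨0, 83, 1, 80, 4, 83⟩, ⟨3, 82, 3, 81, 0, 78⟩,
    ⟨1, 81, 1, 78, 4, 81⟩, ⟨0, 80, 3, 79, 0, 76⟩, ⟨3, 79, 1, 76, 4, 79⟩,
    ⟨1, 78, 3, 77, 0, 74⟩, ⟨0, 77, 1, 74, 4, 77⟩, ⟨3, 76, 3, 75, 0, 72⟩,
    ⟨1, 75, 1, 72, 4, 75⟩, ⟨0, 74, 3, 73, 0, 70⟩, ⟨3, 73, 1, 70, 4, 73⟩,
    ⟨1, 72, 3, 71, 0, 68⟩, ⟨0, 71, 1, 68, 4, 71⟩, ⟨3, 70, 3, 69, 0, 66⟩,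
    ⟨1, 69, 1, 66, 4, 69⟩, ⟨0, 68, 3, 67, 0, 64⟩, ⟨3, 67, 1, 64, 4, 67⟩,
    ⟨1, 66, 3, 65, 0, 62⟩, ⟨0, 65, 1, 62, 4, 65⟩, ⟨3, 64, 3, 63, 0, 60⟩,
    ⟨1, 63, 1, 60, 4, 63⟩, ⟨0, 62, 3, 61, 0, 58⟩, ⟨3, 61, 1, 58, 4, 61⟩,
    ⟨1, 60, 3, 59, 0, 56⟩, ⟨0, 59, 1, 56, 4, 59⟩, ⟨3, 58, 3, 57, 0, 54⟩,
    ⟨1, 57, 1, 54, 4, 57⟩, ⟨0, 56, 3, 55, 0, 52⟩, ⟨3, 55, 1, 52, 4, 55⟩,
    ⟨1, 54, 3, 53, 0, 50⟩, ⟨0, 53, 1, 50, 4, 53⟩, ⟨3, 52, 3, 51, 0, 48⟩,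
    ⟨1, 51, 1, 48, 4, 51⟩, ⟨0, 50, 3, 49, 0, 46⟩, ⟨3, 49, 1, 46, 4, 49⟩,
    ⟨1, 48, 3, 47, 0, 44⟩, ⟨0, 47, 1, 44, 4, 47⟩, ⟨3, 46, 3, 45, 0, 42⟩,
    ⟨1, 45, 1, 42, 4, 45⟩, ⟨0, 44, 3, 43, 0, 40⟩, ⟨3, 43, 1, 40, 4, 43⟩,
    ⟨1, 42, 3, 41, 0, 38⟩, ⟨0, 41, 1, 38, 4, 41⟩, ⟨3, 40, 3, 39, 0, 36⟩,
    ⟨1, 39, 1, 36, 4, 39⟩, ⟨0, 38, 3, 37, 0, 34⟩, ⟨3, 37, 1, 34, 4, 37⟩,
    ⟨1, 36, 3, 35, 0, 32⟩, ⟨0, 35, 1, 32, 4, 35⟩, ⟨3, 34, 3, 33, 0, 30⟩,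
    ⟨1, 33, 1, 30, 4, 33⟩, ⟨0, 32, 3, 31, 0, 28⟩, ⟨3, 31, 1, 28, 4, 31⟩,
    ⟨1, 30, 3, 29, 0, 26⟩, ⟨0, 29, 1, 26, 4, 29⟩, ⟨3, 28, 3, 27, 0, 24⟩,
    ⟨1, 27, 1, 24, 4, 27⟩, ⟨0, 26, 3, 25, 0, 22⟩, ⟨3, 25, 1, 22, 4, 25⟩,
    ⟨1, 24, 3, 23, 0, 20⟩, ⟨0, 23, 1, 20, 4, 23⟩, ⟨3, 22, 3, 21, 0, 18⟩,
    ⟨1, 21, 1, 18, 4, 21⟩, ⟨0, 20, 3, 19, 0, 16⟩, ⟨3, 19, 1, 16, 4, 19⟩,
    ⟨1, 18, 3, 17, 0, 14⟩, ⟨0, 17, 1, 14, 4, 17⟩, ⟨3, 16, 3, 15, 0, 12⟩,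
    ⟨1, 15, 1, 12, 4, 15⟩, ⟨0, 14, 3, 13, 0, 10⟩, ⟨3, 13, 1, 10, 4, 13⟩,
    ⟨1, 12, 3, 11, 0, 8⟩, ⟨0, 11, 1, 8, 4, 11⟩, ⟨3, 10, 3, 9, 0, 6⟩,
    ⟨1, 9, 1, 6, 4, 9⟩, ⟨0, 8, 3, 7, 0, 4⟩, ⟨3, 7, 1, 4, 4, 7⟩,
    ⟨1, 1, 0, 1, 0, 0⟩, ⟨3, 1, 1, 1, 0, 1⟩, ⟨1, 1, 1, 0, 0, 1⟩,
    ⟨0, 1, 0, 0, 0, 1⟩, ⟨2, 1, 0, 1, 1, 0⟩, ⟨0, 1, 1, 1, 1, 1⟩,
    ⟨3, 1, 1, 1, 0, 1⟩
  ]

lemma cert_ok : go cert (fun c => W (dl c) [1]) (fun c => W (dl c) [3])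
    (fun c d => Q (dl c) (dl d) [1] - Q (dl c) (dl d) [3]) 1 3 = true := by
  decide +kernel

/-- The periodic top of the directive sequence. -/
def top (n : ℕ) : Fin 4 := ⟨n % 4, Nat.mod_lt _ (by norm_num)⟩

lemma top_rich : Rich top := by
  intro c k
  refine ⟨4 * k + c, by omega, Fin.ext ?_⟩
  have := c.isLt
  simp only [top]
  omega

theorem exists_pair : ∃ (D : ℕ → Fin 4) (u v : List (Fin 4)), Rich D ∧ Fac D u ∧ Fac D v ∧ u ≠ v ∧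
    (∀ c, W (dl c) u = W (dl c) v) ∧ ∀ c d, B (dl c) (dl d) u = B (dl c) (dl d) v := by
  have f : ∀ c : Fin 4, Fac top [c] := fun c =>
    suf_ext top_rich (w := []) (k := 0) List.nil_suffix c
  obtain ⟨D, u, v, hD, hu, hv, hne, hW, hQ⟩ :=
    go_sound cert top [1] [3] 1 3 top_rich (f 1) (f 3) rfl rfl cert_ok
  refine ⟨D, u, v, hD, hu, hv, hne, hW, fun c d => ?_⟩
  have b1 := two_B (dl c) (dl d) u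
  have b2 := two_B (dl c) (dl d) v
  have e : W (fun e => dl c e * dl d e) u = W (fun e => dl c e * dl d e) v := by
    rw [W_sum _ u, W_sum _ v]
    exact Finset.sum_congr rfl fun e _ => by rw [hW]
  rw [hQ, hW, hW, e] at b1
  omega

end Pool.Agent.P.MP_b9400b_co
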