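import Pool.Agent.P.MP_b9400b_co.Inf

/-!
Letter counts and signed pair counts under runs of one substitution.
-/

set_option autoImplicit false

namespace Pool.Agent.P.MP_b9400b_co

variable {α : Type} [DecidableEq α]

/-- Weighted letter count. -/
def W (f : α → ℤ) : List α → ℤ
  | [] => 0
  | c :: w => f c + W f w

/-- Weighted count of ordered pairs of positions. -/
def B (f g : α → ℤ) : List α → ℤ
  | [] => 0
  | c :: w => f c * W g w + B f g w

/-- Antisymmetrised pair count. -/
def Q (f g : α → ℤ) : List α → ℤ
  | [] => 0
  | c :: w => f c * W g w - g c * W f w + Q f g w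

/-- Indicator of a letter. -/
def dl (a : α) : α → ℤ := fun c => if c = a then 1 else 0

/-- Indicator of the letters other than `a`. -/
def ne (a : α) : α → ℤ := fun c => if c = a then 0 else 1

omit [DecidableEq α] in
lemma W_append (f : α → ℤ) (s t : List α) : W f (s ++ t) = W f s + W f t := by
  induction s with
  | nil => simp [W]
  | cons c s ih => simp only [List.cons_append, W, ih]; ring

omit [DecidableEq α] in
lemma Q_append (f g : α → ℤ) (s t : List α) :
    Q f g (s ++ t) = Q f g s + Q f g t + W f s * W g t - W g s * W f t := by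
  induction s with
  | nil => simp [W, Q]
  | cons c s ih => simp only [List.cons_append, W, Q, ih, W_append]; ring

omit [DecidableEq α] in
lemma W_rep (f : α → ℤ) (x : α) (k : ℕ) : W f (List.replicate k x) = k * f x := by
  induction k with
  | zero => simp [W]
  | succ k ih => simp only [List.replicate_succ, W, ih]; push_cast; ring

omit [DecidableEq α] in
lemma Q_rep (f g : α → ℤ) (x : α) (k : ℕ) : Q f g (List.replicate k x) = 0 := by
  induction k with
  | zero => simp [Q]
  | succ k ih => simp only [List.replicate_succ, Q, ih, W_rep]; ring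

omit [DecidableEq α] in
lemma Q_anti (f g : α → ℤ) (w : List α) : Q f g w = - Q g f w := by
  induction w with
  | nil => simp [Q]
  | cons c w ih => simp only [Q, ih]; ring

omit [DecidableEq α] in
lemma two_B (f g : α → ℤ) (w : List α) :
    2 * B f g w = Q f g w + W f w * W g w - W (fun c => f c * g c) w := by
  induction w with
  | nil => simp [B, Q, W]
  | cons c w ih => simp only [B, Q, W]; linear_combination ih

lemma W_sum [Fintype α] (f : α → ℤ) (w : List α) : W f w = ∑ c, f c * W (dl c) w := by
  induction w with
  | nil => simp [W]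
  | cons d w ih =>
    simp only [W, mul_add, Finset.sum_add_distrib, ← ih]
    simp [dl]

lemma Q_sum [Fintype α] (f g : α → ℤ) (w : List α) : Q f g w = ∑ c, f c * Q (dl c) g w := by
  induction w with
  | nil => simp [Q]
  | cons d w ih =>
    simp only [Q, mul_add, mul_sub, Finset.sum_add_distrib, Finset.sum_sub_distrib, ← ih]
    have e : ∑ c, f c * (g d * W (dl c) w) = g d * W f w := by
      rw [W_sum f w, Finset.mul_sum]
      exact Finset.sum_congr rfl fun c _ => by ring
    rw [e]
    simp [dl]

/-- The `m`-th power of the substitution `sig x`. -/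
def tau (x : α) (m : ℕ) : List α → List α
  | [] => []
  | c :: w => if c = x then x :: tau x m w else List.replicate m x ++ c :: tau x m w

lemma sig_rep (x : α) (m : ℕ) : sig x (List.replicate m x) = List.replicate m x := by
  induction m with
  | zero => rfl
  | succ m ih => simp [List.replicate_succ, sig, ih]

lemma sig_tau (x : α) (m : ℕ) (w : List α) : sig x (tau x m w) = tau x (m + 1) w := by
  induction w with
  | nil => rfl
  | cons c w ih =>
    by_cases h : c = x
    · simp [tau, sig, h, ih]
    · simp [tau, sig, h, ih, sig_append, sig_rep, List.replicate_succ']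

lemma tau_zero (x : α) (w : List α) : tau x 0 w = w := by
  induction w with
  | nil => rfl
  | cons c w ih => by_cases h : c = x <;> simp [tau, h, ih]

lemma W_tau (f : α → ℤ) (x : α) (m : ℕ) (w : List α) :
    W f (tau x m w) = W f w + m * f x * W (ne x) w := by
  induction w with
  | nil => simp [tau, W]
  | cons c w ih =>
    by_cases h : c = x
    · simp only [tau, h, if_true, W, ih, ne]; ring
    · simp only [tau, h, if_false, W, ih, ne, W_append, W_rep]; ring

lemma Q_tau (f g : α → ℤ) (x : α) (hg : g x = 0) (m : ℕ) (w : List α) :
    Q f g (tau x m w) = Q f g w + m * f x * (Q (ne x) g w + W g w) := by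
  induction w with
  | nil => simp [tau, W, Q]
  | cons c w ih =>
    by_cases h : c = x
    · simp only [tau, h, if_true, W, Q, ih, ne, W_tau, hg]; ring
    · simp only [tau, h, if_false, W, Q, ih, ne, W_rep, Q_append, Q_rep, W_tau, hg]
      ring

lemma tau_head (x : α) (m : ℕ) (w : List α) (h : 1 ≤ W (ne x) w) :
    ∃ r, tau x m w = List.replicate m x ++ r ∧ r.head? = w.head? := by
  induction w with
  | nil => simp [W] at h
  | cons c w ih =>
    by_cases hc : c = x
    · obtain ⟨r, hr, -⟩ := ih (by simpa [W, ne, hc] using h)
      refine ⟨x :: r, ?_, by simp [hc]⟩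
      simp only [tau, hc, if_true, hr]
      rw [← List.cons_append, ← List.replicate_succ, List.replicate_succ']
      simp
    · exact ⟨c :: tau x m w, by simp [tau, hc], by simp⟩

/-- Put the letter `x` in front of a directive sequence. -/
def cons (x : α) (D : ℕ → α) : ℕ → α
  | 0 => x
  | n + 1 => D n

/-- Put `m` letters `x` in front of a directive sequence. -/
def run (x : α) : ℕ → (ℕ → α) → ℕ → α
  | 0, D => D
  | m + 1, D => cons x (run x m D)

omit [DecidableEq α] in
lemma Rich.run {D : ℕ → α} (hD : Rich D) (x : α) (m : ℕ) : Rich (run x m D) := by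
  induction m with
  | zero => exact hD
  | succ m ih =>
    intro c k
    obtain ⟨K, hK, hc⟩ := ih c k
    exact ⟨K + 1, by omega, hc⟩

lemma Fac.run {D : ℕ → α} {w : List α} (h : Fac D w) (x : α) (m : ℕ) :
    Fac (run x m D) (tau x m w ++ List.replicate m x) := by
  induction m with
  | zero => simpa [tau_zero, MP_b9400b_co.run] using h
  | succ m ih =>
    have h2 : Fac (sh (cons x (MP_b9400b_co.run x m D))) (tau x m w ++ List.replicate m x) := ih
    have h3 := h2.down
    have e : cons x (MP_b9400b_co.run x m D) 0 = x := rfl
    rw [e, sig_append, sig_tau, sig_rep, List.append_assoc, ← List.replicate_succ'] at h3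
    exact h3

/-- One run of the letter `x`, cutting `k` letters on the left and keeping `k'` on the right. -/
lemma word_step {D : ℕ → α} {u : List α} (hu : Fac D u) (x : α) (m k k' : ℕ) (hk : k ≤ m)
    (hk' : k' ≤ m) (hN : 1 ≤ W (ne x) u) (a : α) (ha : u.head? = some a) :
    ∃ u' : List α, Fac (run x m D) u' ∧ u'.head? = some (if k < m then x else a) ∧
      (∀ f : α → ℤ, W f u' = W f u + f x * (m * W (ne x) u + k' - k)) ∧
      (∀ f g : α → ℤ, g x = 0 →
        Q f g u' = Q f g u + f x * (m * Q (ne x) g u + (m - k - k') * W g u)) := by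
  obtain ⟨r, hr, hh⟩ := tau_head x m u hN
  have e : List.replicate k x ++ (List.replicate (m - k) x ++ r ++ List.replicate k' x)
      = tau x m u ++ List.replicate k' x := by
    rw [hr, ← List.append_assoc, ← List.append_assoc, List.replicate_append_replicate,
      Nat.add_sub_cancel' hk]
  have eW : ∀ f : α → ℤ, W f (List.replicate (m - k) x ++ r ++ List.replicate k' x)
      = W f u + f x * (m * W (ne x) u + k' - k) := by
    intro f
    have := congrArg (W f) e
    rw [W_append, W_append _ (tau x m u), W_rep, W_rep, W_tau] at this
    linear_combination this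
  refine ⟨List.replicate (m - k) x ++ r ++ List.replicate k' x, ?_, ?_, eW, ?_⟩
  · refine (hu.run x m).mono ⟨List.replicate k x, List.replicate (m - k') x, ?_⟩
    rw [e, List.append_assoc, List.replicate_append_replicate, Nat.add_sub_cancel' hk']
  · rw [ha] at hh
    by_cases h : k < m
    · obtain ⟨j, hj⟩ : ∃ j, m - k = j + 1 := ⟨m - k - 1, by omega⟩
      simp [h, hj, List.replicate_succ]
    · have : m - k = 0 := by omega
      cases r with
      | nil => simp at hh
      | cons c r => simpa [h, this] using hh
  · intro f g hg
    have := congrArg (Q f g) e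
    rw [Q_append, Q_append _ _ (tau x m u), eW, eW] at this
    simp only [Q_rep, W_rep, W_tau, Q_tau _ _ _ hg, hg] at this
    linear_combination this

lemma card_letter [Fintype α] (a : α) : ∀ (n : ℕ) (u : Fin n → α),
    (Nat.card {j : Fin n // u j = a} : ℤ) = W (dl a) (List.ofFn u) := by
  have h : ∀ (n : ℕ) (u : Fin n → α), ∑ j, dl a (u j) = W (dl a) (List.ofFn u) := by
    intro n
    induction n with
    | zero => intro u; simp [W]
    | succ n ih => intro u; rw [Fin.sum_univ_succ, List.ofFn_succ, W, ih]
  intro n u
  rw [← h, Nat.card_eq_fintype_card, Fintype.card_subtype, Finset.card_filter]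
  simp [dl]

lemma card_pair [Fintype α] (a b : α) : ∀ (n : ℕ) (u : Fin n → α),
    (Nat.card {p : Fin n × Fin n // p.1 < p.2 ∧ u p.1 = a ∧ u p.2 = b} : ℤ)
      = B (dl a) (dl b) (List.ofFn u) := by
  have h0 : ∀ (n : ℕ) (u : Fin n → α), ∑ j, dl b (u j) = W (dl b) (List.ofFn u) := by
    intro n
    induction n with
    | zero => intro u; simp [W]
    | succ n ih => intro u; rw [Fin.sum_univ_succ, List.ofFn_succ, W, ih]
  have h : ∀ (n : ℕ) (u : Fin n → α),
      ∑ i, ∑ j, (if i < j then dl a (u i) * dl b (u j) else 0) = B (dl a) (dl b) (List.ofFn u) := by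
    intro n
    induction n with
    | zero => intro u; simp [B]
    | succ n ih =>
      intro u
      rw [Fin.sum_univ_succ, List.ofFn_succ, B, ← ih, ← h0, Fin.sum_univ_succ, Finset.mul_sum]
      congr 1
      · simp
      · refine Finset.sum_congr rfl fun i _ => ?_
        rw [Fin.sum_univ_succ]
        simp
  intro n u
  rw [← h, Nat.card_eq_fintype_card, Fintype.card_subtype, Finset.card_filter,
    ← Finset.univ_product_univ, Finset.sum_product]
  push_cast
  refine Finset.sum_congr rfl fun i _ => Finset.sum_congr rfl fun j _ => ?_
  by_cases h1 : i < j <;> by_cases h2 : u i = a <;> by_cases h3 : u j = b <;> simp [dl, h1, h2, h3]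

end Pool.Agent.P.MP_b9400b_co
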