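import Pool.Agent.P.MP_b9400b_co.Words

/-!
The infinite standard word directed by `D` and its Arnoux-Rauzy properties.
-/

set_option autoImplicit false

namespace Pool.Agent.P.MP_b9400b_co

variable {α : Type} [DecidableEq α]

/-- The standard word directed by `D`. -/
def X (D : ℕ → α) (n : ℕ) : α := (pal (n + 1) D).getD n (D 0)

lemma X_eq (D : ℕ → α) (k n : ℕ) (h : n < (pal k D).length) : X D n = (pal k D)[n] := by
  have h1 : n < (pal (n + 1) D).length := lt_of_lt_of_le (Nat.lt_succ_self n) (pal_length D _)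
  unfold X
  rw [List.getD_eq_getElem _ _ h1]
  rcases le_total k (n + 1) with hk | hk
  · obtain ⟨j, hj⟩ := Nat.exists_eq_add_of_le hk
    obtain ⟨r, hr, -⟩ := pal_pre D k j
    rw [← hj] at hr
    simp only [hr]
    rw [List.getElem_append_left h]
  · obtain ⟨j, hj⟩ := Nat.exists_eq_add_of_le hk
    obtain ⟨r, hr, -⟩ := pal_pre D (n + 1) j
    rw [← hj] at hr
    simp only [hr]
    rw [List.getElem_append_left h1]

lemma fac_iff (D : ℕ → α) (w : List α) :
    Fac D w ↔ ∃ i, ∀ (j : ℕ) (h : j < w.length), X D (i + j) = w[j] := by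
  constructor
  · rintro ⟨k, s, t, hk⟩
    refine ⟨s.length, fun j h => ?_⟩
    have hl : s.length + j < (pal k D).length := by rw [← hk]; simp; omega
    rw [X_eq D k _ hl]
    simp only [← hk]
    rw [List.getElem_append_left (by simp; omega), List.getElem_append_right (by omega)]
    simp
  · rintro ⟨i, hi⟩
    have hl := pal_length D (i + w.length)
    refine ⟨i + w.length, ?_⟩
    have e : w = ((pal (i + w.length) D).drop i).take w.length := by
      apply List.ext_getElem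
      · simp; omega
      · intro j h1 h2
        rw [← hi j h1, X_eq D (i + w.length) _ (by omega)]
        simp
    rw [e]
    exact (List.take_prefix _ _).isInfix.trans (by
      rw [← e]; exact (List.drop_suffix _ _).isInfix)

lemma fac_ofFn (D : ℕ → α) {n : ℕ} (u : Fin n → α) :
    Fac D (List.ofFn u) ↔ ∃ i, ∀ j : Fin n, X D (i + (j : ℕ)) = u j := by
  rw [fac_iff]
  constructor
  · rintro ⟨i, hi⟩
    exact ⟨i, fun j => by simpa using hi j (by simp)⟩
  · rintro ⟨i, hi⟩
    exact ⟨i, fun j h => by simpa using hi ⟨j, by simpa using h⟩⟩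

lemma fac_ofFn_ext (D : ℕ → α) {n : ℕ} (u : Fin n → α) (a : α) :
    Fac D (List.ofFn u ++ [a]) ↔
      ∃ i, (∀ j : Fin n, X D (i + (j : ℕ)) = u j) ∧ X D (i + n) = a := by
  rw [fac_iff]
  constructor
  · rintro ⟨i, hi⟩
    refine ⟨i, fun j => ?_, ?_⟩
    · rw [hi j (by simp), List.getElem_append_left (by simp)]; simp
    · rw [hi n (by simp), List.getElem_append_right (by simp)]; simp
  · rintro ⟨i, hi, ha⟩
    refine ⟨i, fun j h => ?_⟩
    by_cases hj : j < n
    · rw [List.getElem_append_left (by simpa using hj)]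
      simpa using hi ⟨j, hj⟩
    · have : j = n := by simp at h; omega
      subst this
      rw [List.getElem_append_right (by simp)]
      simpa using ha

lemma X_rec (D : ℕ → α) (i n : ℕ) : ∃ k, i < k ∧ ∀ j : ℕ, j < n → X D (k + j) = X D (i + j) := by
  obtain ⟨r, hr, hl⟩ := pal_suf D (i + n) 1
  have h0 := pal_length D (i + n)
  refine ⟨r.length + i, by omega, fun j hj => ?_⟩
  rw [X_eq D (i + n + 1) _ (by rw [hr]; simp; omega), X_eq D (i + n) _ (by omega)]
  simp only [hr]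
  rw [List.getElem_append_right (by omega)]
  congr 1
  omega

lemma X_rev (D : ℕ → α) (n i : ℕ) :
    ∃ k : ℕ, ∀ j : Fin n, X D (k + (j : ℕ)) = X D (i + (n - 1 - (j : ℕ))) := by
  have h : Fac D (List.ofFn fun j : Fin n => X D (i + (j : ℕ))) :=
    (fac_ofFn D _).2 ⟨i, fun _ => rfl⟩
  obtain ⟨k, hk⟩ := (fac_iff D _).1 h.rev
  refine ⟨k, fun j => ?_⟩
  rw [hk j (by simp)]
  simp

lemma X_ext {D : ℕ → α} (hD : Rich D) (n : ℕ) (u : Fin n → α) (a b : α) (hab : a ≠ b)
    (ha : ∃ i : ℕ, (∀ j : Fin n, X D (i + (j : ℕ)) = u j) ∧ X D (i + n) = a)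
    (hb : ∃ i : ℕ, (∀ j : Fin n, X D (i + (j : ℕ)) = u j) ∧ X D (i + n) = b) (c : α) :
    ∃ i : ℕ, (∀ j : Fin n, X D (i + (j : ℕ)) = u j) ∧ X D (i + n) = c := by
  rw [← fac_ofFn_ext] at *
  obtain ⟨k, hk⟩ := special_suf _ D _ a b le_rfl hab ha hb
  exact suf_ext hD hk c

lemma X_unique {D : ℕ → α} (hD : Rich D) (a0 b0 : α) (h0 : a0 ≠ b0) (n : ℕ) :
    ∃! u : Fin n → α, ∃ a b : α, a ≠ b ∧
      (∃ i : ℕ, (∀ j : Fin n, X D (i + (j : ℕ)) = u j) ∧ X D (i + n) = a) ∧
      (∃ i : ℕ, (∀ j : Fin n, X D (i + (j : ℕ)) = u j) ∧ X D (i + n) = b) := by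
  have hl := pal_length D n
  set w := (pal n D).drop ((pal n D).length - n) with hw
  have hwl : w.length = n := by simp [hw]; omega
  have hs : w <:+ pal n D := List.drop_suffix _ _
  have e : List.ofFn (fun j : Fin n => w[(j : ℕ)]'(by omega)) = w := by
    apply List.ext_getElem
    · simp [hwl]
    · intro j h1 h2; simp
  refine ⟨fun j => w[(j : ℕ)]'(by omega), ⟨a0, b0, h0, ?_, ?_⟩, ?_⟩
  · rw [← fac_ofFn_ext, e]; exact suf_ext hD hs a0
  · rw [← fac_ofFn_ext, e]; exact suf_ext hD hs b0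
  · rintro u ⟨a, b, hab, ha, hb⟩
    rw [← fac_ofFn_ext] at ha hb
    obtain ⟨k, hk⟩ := special_suf _ D _ a b le_rfl hab ha hb
    obtain ⟨r1, hr1, -⟩ := pal_suf D k n
    obtain ⟨r2, hr2, -⟩ := pal_suf D n k
    have s1 : List.ofFn u <:+ pal (k + n) D := hk.trans ⟨r1, hr1.symm⟩
    have s2 : w <:+ pal (k + n) D := hs.trans ⟨r2, by rw [Nat.add_comm k n, hr2]⟩
    have e2 : List.ofFn u = w :=
      (List.suffix_of_suffix_length_le s1 s2 (by simp [hwl])).eq_of_length (by simp [hwl])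
    apply List.ofFn_injective
    rw [e, e2]

end Pool.Agent.P.MP_b9400b_co
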