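import Mathlib

/-!
Standard episturmian words of a directive sequence in which every letter occurs infinitely often
are Arnoux-Rauzy words.
-/

set_option autoImplicit false

namespace Pool.Agent.P.MP_b9400b_co

variable {α : Type} [DecidableEq α]

/-- The substitution fixing `x` and sending `b` to `x b` for every other letter. -/
def sig (x : α) : List α → List α
  | [] => []
  | c :: w => if c = x then x :: sig x w else x :: c :: sig x w

lemma sig_append (x : α) (s t : List α) : sig x (s ++ t) = sig x s ++ sig x t := by
  induction s with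
  | nil => rfl
  | cons c s ih => by_cases h : c = x <;> simp [sig, h, ih]

lemma sig_head (x : α) (w : List α) : ∃ r, sig x w ++ [x] = x :: r := by
  cases w with
  | nil => exact ⟨[], rfl⟩
  | cons c w => by_cases h : c = x <;> simp [sig, h]

lemma sig_rev (x : α) (w : List α) : (sig x w ++ [x]).reverse = sig x w.reverse ++ [x] := by
  induction w with
  | nil => rfl
  | cons c w ih =>
    rw [List.reverse_cons, sig_append]
    by_cases h : c = x
    · have e : sig x (c :: w) ++ [x] = x :: (sig x w ++ [x]) := by simp [sig, h]
      rw [e, List.reverse_cons, ih]; simp [sig, h]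
    · have e : sig x (c :: w) ++ [x] = x :: c :: (sig x w ++ [x]) := by simp [sig, h]
      rw [e, List.reverse_cons, List.reverse_cons, ih]; simp [sig, h]

lemma sig_length (x : α) (w : List α) : w.length ≤ (sig x w).length := by
  induction w with
  | nil => simp [sig]
  | cons c w ih => by_cases h : c = x <;> simp [sig, h] <;> omega

/-- Shift of a directive sequence. -/
def sh (D : ℕ → α) : ℕ → α := fun n => D (n + 1)

/-- The palindromic initial segments of the standard word directed by `D`. -/
def pal : ℕ → (ℕ → α) → List α
  | 0, _ => []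
  | k + 1, D => sig (D 0) (pal k (sh D)) ++ [D 0]

lemma pal_rev (k : ℕ) : ∀ D : ℕ → α, (pal k D).reverse = pal k D := by
  induction k with
  | zero => intro D; rfl
  | succ k ih => intro D; simp only [pal]; rw [sig_rev, ih]

lemma pal_next (k : ℕ) : ∀ D : ℕ → α, ∃ r, pal (k + 1) D = pal k D ++ D k :: r := by
  induction k with
  | zero => intro D; exact ⟨[], rfl⟩
  | succ k ih =>
    intro D
    obtain ⟨r, hr⟩ := ih (sh D)
    have e : pal (k + 2) D = sig (D 0) (pal (k + 1) (sh D)) ++ [D 0] := rfl
    have e1 : pal (k + 1) D = sig (D 0) (pal k (sh D)) ++ [D 0] := rfl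
    rw [e, hr, sig_append, e1]
    have e2 : sh D k = D (k + 1) := rfl
    rw [e2]
    by_cases h : D (k + 1) = D 0
    · obtain ⟨q, hq⟩ := sig_head (D 0) r
      refine ⟨q, ?_⟩
      simp only [sig, h, if_true, List.append_assoc, List.cons_append, hq, List.nil_append]
    · refine ⟨sig (D 0) r ++ [D 0], ?_⟩
      simp [sig, h]

lemma pal_pre (D : ℕ → α) (k j : ℕ) : ∃ r, pal (k + j) D = pal k D ++ r ∧ j ≤ r.length := by
  induction j with
  | zero => exact ⟨[], by simp, le_rfl⟩
  | succ j ih =>
    obtain ⟨r, hr, hl⟩ := ih
    obtain ⟨q, hq⟩ := pal_next (k + j) D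
    refine ⟨r ++ D (k + j) :: q, ?_, by simp; omega⟩
    rw [← Nat.add_assoc, hq, hr]; simp

lemma pal_suf (D : ℕ → α) (k j : ℕ) : ∃ r, pal (k + j) D = r ++ pal k D ∧ j ≤ r.length := by
  obtain ⟨r, hr, hl⟩ := pal_pre D k j
  refine ⟨r.reverse, ?_, by simpa using hl⟩
  rw [← pal_rev (k + j) D, hr, List.reverse_append, pal_rev]

lemma pal_length (D : ℕ → α) (k : ℕ) : k ≤ (pal k D).length := by
  obtain ⟨r, hr, hl⟩ := pal_pre D 0 k
  rw [Nat.zero_add] at hr
  rw [hr]; simpa [pal] using hl

/-- The factors of the standard word directed by `D`. -/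
def Fac (D : ℕ → α) (w : List α) : Prop := ∃ k, w <:+: pal k D

lemma Fac.mono {D : ℕ → α} {w w' : List α} (h : Fac D w) (h' : w' <:+: w) : Fac D w' := by
  obtain ⟨k, hk⟩ := h
  exact ⟨k, h'.trans hk⟩

lemma Fac.rev {D : ℕ → α} {w : List α} (h : Fac D w) : Fac D w.reverse := by
  obtain ⟨k, s, t, hk⟩ := h
  refine ⟨k, t.reverse, s.reverse, ?_⟩
  rw [← pal_rev, ← hk]; simp

lemma Fac.down {D : ℕ → α} {w : List α} (h : Fac (sh D) w) : Fac D (sig (D 0) w ++ [D 0]) := by
  obtain ⟨k, s, t, hk⟩ := h
  obtain ⟨r, hr⟩ := sig_head (D 0) t
  refine ⟨k + 1, sig (D 0) s, r, ?_⟩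
  simp only [pal, ← hk, sig_append, List.append_assoc, hr, List.cons_append, List.nil_append]

/-! Desubstitution. -/

lemma pre_lift (x a : α) : ∀ (r U : List α), sig x r ++ [x, a] <+: sig x U ++ [x] → r ++ [a] <+: U := by
  intro r
  induction r with
  | nil =>
    intro U h
    cases U with
    | nil => have := h.length_le; simp [sig] at this
    | cons d U =>
      by_cases hd : d = x
      · obtain ⟨q, hq⟩ := sig_head x U
        simp only [sig, hd, if_true, List.cons_append, hq, List.nil_append,
          List.cons_prefix_cons, true_and] at h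
        simp [hd, h.1]
      · simp only [sig, hd, if_false, List.cons_append, List.nil_append,
          List.cons_prefix_cons, true_and] at h
        simp [h.1]
  | cons c r ih =>
    intro U h
    cases U with
    | nil =>
      have := h.length_le
      simp [sig] at this
    | cons d U =>
      obtain ⟨q, hq⟩ := sig_head x U
      obtain ⟨p, hp⟩ := sig_head x r
      have hp' : sig x r ++ [x, a] = x :: (p ++ [a]) := by
        have : sig x r ++ [x, a] = (sig x r ++ [x]) ++ [a] := by simp
        rw [this, hp]; rfl
      by_cases hc : c = x <;> by_cases hd : d = x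
      · simp only [sig, hc, hd, if_true, List.cons_append, List.cons_prefix_cons, true_and] at h ⊢
        exact ih U h
      · simp only [sig, hc, hd, if_true, if_false, List.cons_append, List.cons_prefix_cons,
          true_and, hp'] at h
        exact absurd h.1.symm hd
      · simp only [sig, hc, hd, if_true, if_false, List.cons_append, List.cons_prefix_cons,
          true_and, hq] at h
        exact h.1.elim
      · simp only [sig, hc, hd, if_false, List.cons_append, List.cons_prefix_cons,
          true_and] at h ⊢
        exact ⟨h.1, ih U h.2⟩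

lemma inf_lift (x a : α) (r : List α) :
    ∀ U : List α, sig x r ++ [x, a] <:+: sig x U ++ [x] → r ++ [a] <:+: U := by
  intro U
  obtain ⟨p, hp⟩ := sig_head x r
  have hp' : sig x r ++ [x, a] = x :: (p ++ [a]) := by
    have : sig x r ++ [x, a] = (sig x r ++ [x]) ++ [a] := by simp
    rw [this, hp]; rfl
  induction U with
  | nil => intro h; have := h.length_le; simp [sig] at this
  | cons d U ih =>
    intro h
    by_cases hd : d = x
    · have e : sig x (d :: U) ++ [x] = x :: (sig x U ++ [x]) := by simp [sig, hd]
      rw [e, List.infix_cons_iff] at h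
      rcases h with h | h
      · rw [← e] at h; exact (pre_lift x a r _ h).isInfix
      · exact (ih h).trans (List.suffix_cons d U).isInfix
    · have e : sig x (d :: U) ++ [x] = x :: d :: (sig x U ++ [x]) := by simp [sig, hd]
      rw [e, List.infix_cons_iff, List.infix_cons_iff] at h
      rcases h with h | h | h
      · rw [← e] at h; exact (pre_lift x a r _ h).isInfix
      · rw [hp', List.cons_prefix_cons] at h; exact absurd h.1.symm hd
      · exact (ih h).trans (List.suffix_cons d U).isInfix

lemma inf_before (x c : α) (hc : c ≠ x) (t : List α) :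
    ∀ U : List α, c :: t <:+: sig x U ++ [x] → x :: c :: t <:+: sig x U ++ [x] := by
  intro U
  induction U with
  | nil =>
    intro h
    simp only [sig, List.nil_append] at h
    rw [List.infix_cons_iff] at h
    rcases h with h | h
    · rw [List.cons_prefix_cons] at h; exact absurd h.1 hc
    · simp at h
  | cons d U ih =>
    intro h
    by_cases hd : d = x
    · have e : sig x (d :: U) ++ [x] = x :: (sig x U ++ [x]) := by simp [sig, hd]
      rw [e, List.infix_cons_iff] at h
      rw [e]
      rcases h with h | h
      · rw [List.cons_prefix_cons] at h; exact absurd h.1 hc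
      · exact (ih h).trans (List.suffix_cons _ _).isInfix
    · have e : sig x (d :: U) ++ [x] = x :: d :: (sig x U ++ [x]) := by simp [sig, hd]
      rw [e, List.infix_cons_iff, List.infix_cons_iff] at h
      rw [e]
      rcases h with h | h | h
      · rw [List.cons_prefix_cons] at h; exact absurd h.1 hc
      · exact (List.cons_prefix_cons.2 ⟨rfl, h⟩).isInfix
      · exact ((ih h).trans (List.suffix_cons _ _).isInfix).trans (List.suffix_cons _ _).isInfix

lemma two_non (x l a : α) (ha : a ≠ x) :
    ∀ U : List α, [l, a] <:+: sig x U ++ [x] → l = x := by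
  intro U
  induction U with
  | nil => intro h; have := h.length_le; simp [sig] at this
  | cons d U ih =>
    intro h
    obtain ⟨q, hq⟩ := sig_head x U
    by_cases hd : d = x
    · have e : sig x (d :: U) ++ [x] = x :: (sig x U ++ [x]) := by simp [sig, hd]
      rw [e, List.infix_cons_iff] at h
      rcases h with h | h
      · rw [List.cons_prefix_cons] at h; exact h.1
      · exact ih h
    · have e : sig x (d :: U) ++ [x] = x :: d :: (sig x U ++ [x]) := by simp [sig, hd]
      rw [e, List.infix_cons_iff, List.infix_cons_iff] at h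
      rcases h with h | h | h
      · rw [List.cons_prefix_cons] at h; exact h.1
      · rw [hq, List.cons_prefix_cons, List.cons_prefix_cons] at h; exact absurd h.2.1 ha
      · exact ih h

lemma pre_parse (x : α) : ∀ (U w : List α), w ++ [x] <+: sig x U ++ [x] → ∃ r, w = sig x r := by
  intro U
  induction U with
  | nil =>
    intro w h
    have := h.length_le
    simp [sig] at this
    exact ⟨[], by simp [this, sig]⟩
  | cons d U ih =>
    intro w h
    cases w with
    | nil => exact ⟨[], rfl⟩
    | cons c w =>
      by_cases hd : d = x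
      · simp only [sig, hd, if_true, List.cons_append, List.cons_prefix_cons] at h
        obtain ⟨r, hr⟩ := ih w h.2
        exact ⟨x :: r, by simp [sig, hr, h.1]⟩
      · simp only [sig, hd, if_false, List.cons_append, List.cons_prefix_cons] at h
        cases w with
        | nil =>
          simp only [List.nil_append, List.cons_prefix_cons] at h
          exact absurd h.2.1.symm hd
        | cons e w =>
          simp only [List.cons_append, List.cons_prefix_cons] at h
          obtain ⟨r, hr⟩ := ih w h.2.2
          exact ⟨d :: r, by simp [sig, hr, h.1, h.2.1, hd]⟩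

lemma inf_parse (x : α) (w p : List α) (hw : w ++ [x] = x :: p) :
    ∀ U : List α, w ++ [x] <:+: sig x U ++ [x] → ∃ r, w = sig x r := by
  intro U
  induction U with
  | nil => intro h; exact pre_parse x [] w (by
      have := h.length_le
      simp [sig] at this
      simp [this, sig])
  | cons d U ih =>
    intro h
    by_cases hd : d = x
    · have e : sig x (d :: U) ++ [x] = x :: (sig x U ++ [x]) := by simp [sig, hd]
      rw [e, List.infix_cons_iff] at h
      rcases h with h | h
      · rw [← e] at h; exact pre_parse x _ w h
      · exact ih h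
    · have e : sig x (d :: U) ++ [x] = x :: d :: (sig x U ++ [x]) := by simp [sig, hd]
      rw [e, List.infix_cons_iff, List.infix_cons_iff] at h
      rcases h with h | h | h
      · rw [← e] at h; exact pre_parse x _ w h
      · rw [hw, List.cons_prefix_cons] at h; exact absurd h.1.symm hd
      · exact ih h

lemma Fac.succ {D : ℕ → α} {w : List α} (h : Fac D w) :
    ∃ k, w <:+: sig (D 0) (pal k (sh D)) ++ [D 0] := by
  obtain ⟨k, hk⟩ := h
  obtain ⟨r, hr, -⟩ := pal_pre D k 1
  refine ⟨k, ?_⟩
  have e : sig (D 0) (pal k (sh D)) ++ [D 0] = pal (k + 1) D := rfl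
  rw [e, hr]
  exact hk.trans (List.prefix_append _ _).isInfix

lemma sig_len_lt (x c : α) (hc : c ≠ x) (r : List α) (t : List α) (h : sig x r = x :: c :: t) :
    r.length ≤ t.length + 1 := by
  cases r with
  | nil => simp
  | cons d r =>
    by_cases hd : d = x
    · simp only [sig, hd, if_true, List.cons.injEq, true_and] at h
      have := sig_length x r
      rw [h] at this
      obtain ⟨q, hq⟩ := sig_head x r
      rw [h] at hq
      simp only [List.cons_append, List.cons.injEq] at hq
      exact absurd hq.1 hc
    · simp only [sig, hd, if_false, List.cons.injEq, true_and] at h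
      have := sig_length x r
      rw [h.2] at this
      simp; omega

/-- A right special factor is a final segment of one of the palindromes. -/
lemma special_suf (n : ℕ) : ∀ (D : ℕ → α) (w : List α) (a b : α), w.length ≤ n → a ≠ b →
    Fac D (w ++ [a]) → Fac D (w ++ [b]) → ∃ k, w <:+ pal k D := by
  induction n with
  | zero =>
    intro D w a b hl _ _ _
    have : w = [] := List.length_eq_zero_iff.1 (by omega)
    exact ⟨0, by simp [this]⟩
  | succ n ih =>
    intro D w a b hl hab ha hb
    rcases List.eq_nil_or_concat w with rfl | ⟨w0, l, rfl⟩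
    · exact ⟨0, by simp⟩
    simp only [List.concat_eq_append] at *
    obtain ⟨ka, hka⟩ := ha.succ
    obtain ⟨kb, hkb⟩ := hb.succ
    have hlx : l = D 0 := by
      by_cases h : a = D 0
      · have hb' : b ≠ D 0 := fun e => hab (h.trans e.symm)
        refine two_non (D 0) l b hb' _ (List.IsInfix.trans ?_ hkb)
        exact ⟨w0, [], by simp⟩
      · refine two_non (D 0) l a h _ (List.IsInfix.trans ?_ hka)
        exact ⟨w0, [], by simp⟩
    subst hlx
    -- the general case: an extension `w1` of `w0` that starts with `D 0`
    have key : ∀ w1 p : List α, w1 ++ [D 0] = D 0 :: p → w0 <:+ w1 →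
        (∀ r, w1 = sig (D 0) r → r.length ≤ n) →
        w1 ++ [D 0] ++ [a] <:+: sig (D 0) (pal ka (sh D)) ++ [D 0] →
        w1 ++ [D 0] ++ [b] <:+: sig (D 0) (pal kb (sh D)) ++ [D 0] →
        ∃ k, w0 ++ [D 0] <:+ pal k D := by
      intro w1 p hp hs hlen h1 h2
      obtain ⟨r, hr⟩ := inf_parse (D 0) w1 p hp _ ((List.prefix_append _ _).isInfix.trans h1)
      have h1' := inf_lift (D 0) a r _ (by simpa [hr] using h1)
      have h2' := inf_lift (D 0) b r _ (by simpa [hr] using h2)
      obtain ⟨k, s, hk⟩ := ih (sh D) r a b (hlen r hr) hab ⟨ka, h1'⟩ ⟨kb, h2'⟩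
      obtain ⟨s', hs'⟩ := hs
      refine ⟨k + 1, sig (D 0) s ++ s', ?_⟩
      simp only [pal, ← hk, sig_append, ← hr, ← hs', List.append_assoc]
    simp only [List.length_append, List.length_singleton] at hl
    cases w0 with
    | nil =>
      refine key [] [] rfl List.suffix_rfl ?_ hka hkb
      intro r hr
      have := sig_length (D 0) r
      rw [← hr] at this
      simp at this; simp [this]
    | cons c t =>
      by_cases hc : c = D 0
      · refine key (c :: t) (t ++ [D 0]) (by simp [hc]) List.suffix_rfl ?_ hka hkb
        intro r hr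
        have := sig_length (D 0) r
        rw [← hr] at this
        omega
      · refine key (D 0 :: c :: t) (c :: t ++ [D 0]) (by simp) (List.suffix_cons _ _) ?_
          (inf_before (D 0) c hc _ _ hka) (inf_before (D 0) c hc _ _ hkb)
        intro r hr
        have := sig_len_lt (D 0) c hc r t hr.symm
        simp at hl
        omega

/-- Every letter occurs infinitely often in the directive sequence. -/
def Rich (D : ℕ → α) : Prop := ∀ (c : α) (k : ℕ), ∃ K, k ≤ K ∧ D K = c

lemma suf_ext {D : ℕ → α} (hD : Rich D) {w : List α} {k : ℕ} (h : w <:+ pal k D) (c : α) :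
    Fac D (w ++ [c]) := by
  obtain ⟨K, hK, hc⟩ := hD c k
  obtain ⟨j, rfl⟩ := Nat.exists_eq_add_of_le hK
  obtain ⟨r, hr, -⟩ := pal_suf D k j
  obtain ⟨q, hq⟩ := pal_next (k + j) D
  obtain ⟨s, hs⟩ := h
  refine ⟨k + j + 1, r ++ s, q, ?_⟩
  rw [hq, hr, ← hs, hc]; simp

end Pool.Agent.P.MP_b9400b_co
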